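import Mathlib

/-! Separation lemma for `MP_064e8c_al` (split metabelian groups), part (3) of row 1220:
an equation `v = Σ s_j u_j` in the group ring module `V[T]` that is solvable in all the
finite quotients is solvable. -/

open Finset Filter

namespace Pool.Agent.H43Sep

variable {T V ι J : Type*} [AddCommGroup T] [AddCommGroup V]

open Classical in
theorem core [Fintype J] (F : Ultrafilter ι) (K : ι → AddSubgroup T) (M : ι → AddSubgroup V)
    (hK : ∀ x : T, x ≠ 0 → ∀ᶠ i in (F : Filter ι), x ∉ K i)
    (hM : ∀ y : V, y ≠ 0 → ∀ᶠ i in (F : Filter ι), y ∉ M i)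
    (u : J → T →₀ V) (s : ι → J → T)
    (h : ∀ᶠ i in (F : Filter ι), ∀ c : T,
      ∑ j, ∑ w ∈ (u j).support, (if w + s i j - c ∈ K i then u j w else 0) ∈ M i)
    (j0 : J) :
    ∃ s' : J → T, s' j0 = 0 ∧ ∀ c, ∑ j, u j (c - s' j) = 0 := by
  -- the relation
  let R : Setoid J :=
    { r := fun a b => ∃ t : T, ∀ᶠ i in (F : Filter ι), s i a - s i b - t ∈ K i
      iseqv := by
        refine ⟨fun a => ⟨0, ?_⟩, ?_, ?_⟩
        · exact Eventually.of_forall fun i => by simp
        · rintro a b ⟨t, ht⟩
          refine ⟨-t, ht.mono fun i hi => ?_⟩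
          have := (K i).neg_mem hi
          have e : -(s i a - s i b - t) = s i b - s i a - -t := by abel
          rwa [e] at this
        · rintro a b c ⟨t, ht⟩ ⟨t', ht'⟩
          refine ⟨t + t', (ht.and ht').mono fun i hi => ?_⟩
          have := (K i).add_mem hi.1 hi.2
          have e : s i a - s i b - t + (s i b - s i c - t') = s i a - s i c - (t + t') := by abel
          rwa [e] at this }
  let r : J → J := fun j => (Quotient.mk R j).out
  have hr : ∀ j, ∃ t : T, ∀ᶠ i in (F : Filter ι), s i j - s i (r j) - t ∈ K i := by
    intro j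
    have : R.r j (r j) := by
      have h1 : Quotient.mk R (r j) = Quotient.mk R j := Quotient.out_eq _
      exact Quotient.exact h1.symm
    exact this
  choose τ hτ using hr
  have hrr : ∀ j, r (r j) = r j := by
    intro j
    have h1 : Quotient.mk R (r j) = Quotient.mk R j := Quotient.out_eq _
    show (Quotient.mk R (r j)).out = (Quotient.mk R j).out
    rw [h1]
  have key : ∀ p : J, ∀ e : T, ∑ j ∈ univ.filter (fun j => r j = p), u j (e - τ j) = 0 := by
    intro p e
    by_cases hp : ∃ j, r j = p
    swap
    · apply Finset.sum_eq_zero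
      intro j hj
      exact absurd ⟨j, (Finset.mem_filter.mp hj).2⟩ hp
    have hpp : r p = p := by
      obtain ⟨j, rfl⟩ := hp
      exact hrr j
    by_contra hy
    have h1 := hM _ hy
    -- inside the class
    have h2 : ∀ᶠ i in (F : Filter ι), ∀ j, r j = p → ∀ w ∈ (u j).support,
        (w + s i j - (s i p + e) ∈ K i ↔ w = e - τ j) := by
      rw [eventually_all]
      intro j
      by_cases hj : r j = p
      swap
      · exact Eventually.of_forall fun i h => absurd h hj
      have h3 : ∀ᶠ i in (F : Filter ι), ∀ w ∈ (u j).support, w ≠ e - τ j →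
          w + τ j - e ∉ K i := by
        rw [Filter.eventually_all_finset]
        intro w _
        by_cases hw : w = e - τ j
        · exact Eventually.of_forall fun i h => absurd hw h
        · have : w + τ j - e ≠ 0 := by
            intro h0
            apply hw
            have : w = (w + τ j - e) + (e - τ j) := by abel
            rw [this, h0, zero_add]
          exact (hK _ this).mono fun i hi _ => hi
      refine (h3.and (hτ j)).mono fun i hi _ w hw => ?_
      have ht := hi.2
      rw [hj] at ht
      constructor
      · intro hmem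
        by_contra hne
        apply hi.1 w hw hne
        have := (K i).sub_mem hmem ht
        have e1 : w + s i j - (s i p + e) - (s i j - s i p - τ j) = w + τ j - e := by abel
        rwa [e1] at this
      · intro hw2
        have e1 : w + s i j - (s i p + e) = s i j - s i p - τ j := by
          rw [hw2]; abel
        rw [e1]; exact ht
    -- outside the class
    have h4 : ∀ᶠ i in (F : Filter ι), ∀ j, r j ≠ p → ∀ w ∈ (u j).support,
        w + s i j - (s i p + e) ∉ K i := by
      rw [eventually_all]
      intro j
      by_cases hj : r j = p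
      · exact Eventually.of_forall fun i h => absurd hj h
      have h5 : ∀ᶠ i in (F : Filter ι), ∀ w ∈ (u j).support, w + s i j - (s i p + e) ∉ K i := by
        rw [Filter.eventually_all_finset]
        intro w _
        by_contra hnot
        apply hj
        have h6 : ∀ᶠ i in (F : Filter ι), w + s i j - (s i p + e) ∈ K i := by
          have := (Ultrafilter.eventually_not (f := F)
            (p := fun i => w + s i j - (s i p + e) ∈ K i)).not.mp hnot
          simpa using this
        have h7 : R.r j p := ⟨e - w, h6.mono fun i hi => by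
          have e1 : s i j - s i p - (e - w) = w + s i j - (s i p + e) := by abel
          rw [e1]; exact hi⟩
        have h8 : Quotient.mk R j = Quotient.mk R p := Quotient.sound h7
        have h9 : r j = r p := by
          show (Quotient.mk R j).out = (Quotient.mk R p).out
          rw [h8]
        rw [h9, hpp]
      exact h5.mono fun i hi _ => hi
    obtain ⟨i, hi1, hi2, hi4, hi5⟩ := (h1.and (h2.and (h4.and h))).exists
    apply hi1
    have h10 := hi5 (s i p + e)
    have h11 : ∑ j, ∑ w ∈ (u j).support, (if w + s i j - (s i p + e) ∈ K i then u j w else 0) =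
        ∑ j ∈ univ.filter (fun j => r j = p), u j (e - τ j) := by
      rw [Finset.sum_filter]
      apply Finset.sum_congr rfl
      intro j _
      by_cases hj : r j = p
      · rw [if_pos hj]
        by_cases hsup : e - τ j ∈ (u j).support
        · rw [Finset.sum_eq_single (e - τ j)]
          · rw [if_pos ((hi2 j hj _ hsup).mpr rfl)]
          · intro w hw hne
            rw [if_neg (fun hmem => hne ((hi2 j hj w hw).mp hmem))]
          · intro hnot
            exact absurd hsup hnot
        · have hz : u j (e - τ j) = 0 := by simpa using hsup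
          rw [hz]
          apply Finset.sum_eq_zero
          intro w hw
          by_cases hmem : w + s i j - (s i p + e) ∈ K i
          · rw [if_pos hmem, (hi2 j hj w hw).mp hmem, hz]
          · rw [if_neg hmem]
      · rw [if_neg hj]
        apply Finset.sum_eq_zero
        intro w hw
        rw [if_neg (hi4 j hj w hw)]
    rw [h11] at h10
    exact h10
  have total : ∀ e : T, ∑ j, u j (e - τ j) = 0 := by
    intro e
    have h1 := Finset.sum_fiberwise (s := (univ : Finset J)) (g := r) (f := fun j => u j (e - τ j))
    rw [← h1]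
    exact Finset.sum_eq_zero fun p _ => key p e
  refine ⟨fun j => τ j - τ j0, sub_self _, fun c => ?_⟩
  have := total (c + τ j0)
  rw [← this]
  apply Finset.sum_congr rfl
  intro j _
  have e1 : c - (τ j - τ j0) = c + τ j0 - τ j := by abel
  show u j (c - (τ j - τ j0)) = u j (c + τ j0 - τ j)
  rw [e1]

open Classical in
theorem mapDomain_eval {A B : Type*} (f : A → B) (x : A →₀ V) (b : B) :
    Finsupp.mapDomain f x b = ∑ w ∈ x.support, (if f w = b then x w else 0) := by
  rw [Finsupp.mapDomain, Finsupp.sum_apply, Finsupp.sum]
  apply Finset.sum_congr rfl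
  intro w _
  rw [Finsupp.single_apply]

/-- **Separation.** -/
theorem sep [Fintype J] (F : Ultrafilter ι) (K : ι → AddSubgroup T) (M : ι → AddSubgroup V)
    (hK : ∀ x : T, x ≠ 0 → ∀ᶠ i in (F : Filter ι), x ∉ K i)
    (hM : ∀ y : V, y ≠ 0 → ∀ᶠ i in (F : Filter ι), y ∉ M i)
    (u : J → T →₀ V) (v : T →₀ V) (s : ι → J → T)
    (h : ∀ᶠ i in (F : Filter ι), ∀ c : T ⧸ K i, (Finsupp.mapDomain (QuotientAddGroup.mk : T → T ⧸ K i)
       (v - ∑ j, (u j).mapDomain (fun x => s i j + x))) c ∈ M i) :
    ∃ s' : J → T, v = ∑ j, (u j).mapDomain (fun x => s' j + x) := by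
  let _ : ∀ p : Prop, Decidable p := Classical.propDecidable
  have hmain := core (J := Option J) F K M hK hM
    (fun j => j.elim (-v) u) (fun i j => j.elim 0 (s i)) (by
    refine h.mono ?_
    intro i hi c
    have h1 := hi (QuotientAddGroup.mk c)
    have h2 : Finsupp.mapDomain (QuotientAddGroup.mk : T → T ⧸ K i)
       (v - ∑ j, (u j).mapDomain (fun x => s i j + x)) =
       Finsupp.mapDomain (QuotientAddGroup.mk : T → T ⧸ K i) v -
        ∑ j, Finsupp.mapDomain (fun x : T => (QuotientAddGroup.mk (s i j + x) : T ⧸ K i)) (u j) := by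
      have h3 := map_sub (Finsupp.mapDomain.addMonoidHom (M := V)
        (QuotientAddGroup.mk : T → T ⧸ K i)) v (∑ j, (u j).mapDomain (fun x => s i j + x))
      rw [map_sum] at h3
      simp only [Finsupp.mapDomain.addMonoidHom_apply] at h3
      rw [h3]
      congr 1
      apply Finset.sum_congr rfl
      intro j _
      rw [← Finsupp.mapDomain_comp]
      rfl
    rw [h2, Finsupp.sub_apply, Finsupp.finsetSum_apply] at h1
    rw [Fintype.sum_option]
    have h4 : ∀ x : T, ∀ t : T, ((QuotientAddGroup.mk (t + x) : T ⧸ K i) = QuotientAddGroup.mk c ↔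
        x + t - c ∈ K i) := by
      intro x t
      rw [QuotientAddGroup.eq, ← (K i).neg_mem_iff]
      have : -(-(t + x) + c) = x + t - c := by abel
      rw [this]
    have h5 : ∑ j, ∑ w ∈ (u j).support, (if w + s i j - c ∈ K i then u j w else 0) =
        ∑ j, Finsupp.mapDomain (fun x : T => (QuotientAddGroup.mk (s i j + x) : T ⧸ K i)) (u j)
          (QuotientAddGroup.mk c) := by
      apply Finset.sum_congr rfl
      intro j _
      rw [mapDomain_eval]
      apply Finset.sum_congr rfl
      intro w _
      by_cases hw : w + s i j - c ∈ K i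
      · rw [if_pos hw, if_pos ((h4 w _).mpr hw)]
      · rw [if_neg hw, if_neg (fun h => hw ((h4 w _).mp h))]
    have h6 : ∑ w ∈ (-v).support, (if w + 0 - c ∈ K i then (-v) w else 0) =
        -(Finsupp.mapDomain (QuotientAddGroup.mk : T → T ⧸ K i) v (QuotientAddGroup.mk c)) := by
      rw [mapDomain_eval, ← Finset.sum_neg_distrib, Finsupp.support_neg]
      apply Finset.sum_congr rfl
      intro w _
      have h7 := h4 w 0
      rw [zero_add] at h7
      by_cases hw : w + 0 - c ∈ K i
      · rw [if_pos hw, if_pos (h7.mpr hw)]; rfl
      · rw [if_neg hw, if_neg (fun h => hw (h7.mp h)), neg_zero]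
    have h8 := (M i).neg_mem h1
    rw [neg_sub, sub_eq_neg_add, ← h5, ← h6] at h8
    exact h8) none
  obtain ⟨s', h0, hs'⟩ := hmain
  refine ⟨fun j => s' (some j), Finsupp.ext fun c => ?_⟩
  have h1 := hs' c
  rw [Fintype.sum_option] at h1
  simp only [Option.elim, h0, sub_zero, Finsupp.neg_apply] at h1
  rw [neg_add_eq_zero] at h1
  rw [h1, Finsupp.finsetSum_apply]
  apply Finset.sum_congr rfl
  intro j _
  have h2 := Finsupp.mapDomain_apply (f := fun x => s' (some j) + x)
    (fun a b hab => add_left_cancel hab) (u j) (c - s' (some j))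
  simp only [add_sub_cancel] at h2
  exact h2.symm

end Pool.Agent.H43Sep
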