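import Mathlib
import Pool.Agent.H96MB.Defs
import Pool.Agent.H93RF.RF

/-! `separation` for `MP_064e8c_al` (split metabelian groups), in the form of helper96's
skeleton. -/

open Finset Filter

namespace Pool.Agent.H43Sep2

section Core

variable {T V ι κ J : Type*} [AddCommGroup T] [AddCommGroup V]

open Classical in
/-- the coefficient at the class of `(c, k)` of the translate by `s` -/
noncomputable def G (K : AddSubgroup T) (x : T × ι →₀ V) (s c : T) (k : ι) : V :=
  ∑ w ∈ x.support, (if w.1 + s - c ∈ K ∧ w.2 = k then x w else 0)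

theorem core [Fintype J] (F : Ultrafilter κ) (S : AddSubgroup T) (K : κ → AddSubgroup T)
    (M : κ → AddSubgroup V) (hSK : ∀ i, S ≤ K i)
    (hK : ∀ x : T, x ∉ S → ∀ᶠ i in (F : Filter κ), x ∉ K i)
    (hM : ∀ y : V, y ≠ 0 → ∀ᶠ i in (F : Filter κ), y ∉ M i)
    (u : J → T × ι →₀ V) (s : κ → J → T)
    (h : ∀ i, ∀ c : T, ∀ k : ι, ∑ j, G (K i) (u j) (s i j) c k ∈ M i) (j0 : J) :
    ∃ s' : J → T, s' j0 = 0 ∧ ∀ c k, ∑ j, G S (u j) (s' j) c k = 0 := by
  classical
  -- the relation
  let R : Setoid J :=
    { r := fun a b => ∃ t : T, ∀ᶠ i in (F : Filter κ), s i a - s i b - t ∈ K i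
      iseqv := by
        refine ⟨fun a => ⟨0, ?_⟩, ?_, ?_⟩
        · exact Eventually.of_forall fun i => by simp
        · rintro a b ⟨t, ht⟩
          refine ⟨-t, ht.mono fun i hi => ?_⟩
          have := (K i).neg_mem hi
          have e : -(s i a - s i b - t) = s i b - s i a - -t := by abel
          rwa [e] at this
        · rintro a b c ⟨t, ht⟩ ⟨t', ht'⟩
          refine ⟨t + t', (ht.and ht').mono fun i hi => ?_⟩
          have := (K i).add_mem hi.1 hi.2
          have e : s i a - s i b - t + (s i b - s i c - t') = s i a - s i c - (t + t') := by abel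
          rwa [e] at this }
  let r : J → J := fun j => (Quotient.mk R j).out
  have hr : ∀ j, ∃ t : T, ∀ᶠ i in (F : Filter κ), s i j - s i (r j) - t ∈ K i := by
    intro j
    have : R.r j (r j) := by
      have h1 : Quotient.mk R (r j) = Quotient.mk R j := Quotient.out_eq _
      exact Quotient.exact h1.symm
    exact this
  choose τ hτ using hr
  have hrr : ∀ j, r (r j) = r j := by
    intro j
    have h1 : Quotient.mk R (r j) = Quotient.mk R j := Quotient.out_eq _
    show (Quotient.mk R (r j)).out = (Quotient.mk R j).out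
    rw [h1]
  have key : ∀ p : J, ∀ e : T, ∀ k : ι,
      ∑ j ∈ univ.filter (fun j => r j = p), G S (u j) (τ j) e k = 0 := by
    intro p e k
    by_cases hp : ∃ j, r j = p
    swap
    · apply Finset.sum_eq_zero
      intro j hj
      exact absurd ⟨j, (Finset.mem_filter.mp hj).2⟩ hp
    have hpp : r p = p := by
      obtain ⟨j, rfl⟩ := hp
      exact hrr j
    by_contra hy
    have h1 := hM _ hy
    -- inside the class
    have h2 : ∀ᶠ i in (F : Filter κ), ∀ j, r j = p → ∀ w ∈ (u j).support,
        (w.1 + s i j - (s i p + e) ∈ K i ↔ w.1 + τ j - e ∈ S) := by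
      rw [eventually_all]
      intro j
      by_cases hj : r j = p
      swap
      · exact Eventually.of_forall fun i h => absurd h hj
      have h3 : ∀ᶠ i in (F : Filter κ), ∀ w ∈ (u j).support, w.1 + τ j - e ∉ S →
          w.1 + τ j - e ∉ K i := by
        rw [Filter.eventually_all_finset]
        intro w _
        by_cases hw : w.1 + τ j - e ∈ S
        · exact Eventually.of_forall fun i h => absurd hw h
        · exact (hK _ hw).mono fun i hi _ => hi
      refine (h3.and (hτ j)).mono fun i hi _ w hw => ?_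
      have ht := hi.2
      rw [hj] at ht
      constructor
      · intro hmem
        by_contra hne
        apply hi.1 w hw hne
        have := (K i).sub_mem hmem ht
        have e1 : w.1 + s i j - (s i p + e) - (s i j - s i p - τ j) = w.1 + τ j - e := by abel
        rwa [e1] at this
      · intro hw2
        have := (K i).add_mem (hSK i hw2) ht
        have e1 : w.1 + τ j - e + (s i j - s i p - τ j) = w.1 + s i j - (s i p + e) := by
          abel
        rwa [e1] at this
    -- outside the class
    have h4 : ∀ᶠ i in (F : Filter κ), ∀ j, r j ≠ p → ∀ w ∈ (u j).support,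
        w.1 + s i j - (s i p + e) ∉ K i := by
      rw [eventually_all]
      intro j
      by_cases hj : r j = p
      · exact Eventually.of_forall fun i h => absurd hj h
      have h5 : ∀ᶠ i in (F : Filter κ), ∀ w ∈ (u j).support,
          w.1 + s i j - (s i p + e) ∉ K i := by
        rw [Filter.eventually_all_finset]
        intro w _
        by_contra hnot
        apply hj
        have h6 : ∀ᶠ i in (F : Filter κ), w.1 + s i j - (s i p + e) ∈ K i := by
          have := (Ultrafilter.eventually_not (f := F)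
            (p := fun i => w.1 + s i j - (s i p + e) ∈ K i)).not.mp hnot
          simpa using this
        have h7 : R.r j p := ⟨e - w.1, h6.mono fun i hi => by
          have e1 : s i j - s i p - (e - w.1) = w.1 + s i j - (s i p + e) := by abel
          rw [e1]; exact hi⟩
        have h8 : Quotient.mk R j = Quotient.mk R p := Quotient.sound h7
        have h9 : r j = r p := by
          show (Quotient.mk R j).out = (Quotient.mk R p).out
          rw [h8]
        rw [h9, hpp]
      exact h5.mono fun i hi _ => hi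
    obtain ⟨i, hi1, hi2, hi4⟩ := (h1.and (h2.and h4)).exists
    apply hi1
    have h10 := h i (s i p + e) k
    have h11 : ∑ j, G (K i) (u j) (s i j) (s i p + e) k =
        ∑ j ∈ univ.filter (fun j => r j = p), G S (u j) (τ j) e k := by
      rw [Finset.sum_filter]
      apply Finset.sum_congr rfl
      intro j _
      by_cases hj : r j = p
      · rw [if_pos hj]
        unfold G
        apply Finset.sum_congr rfl
        intro w hw
        rw [hi2 j hj w hw]
      · rw [if_neg hj]
        unfold G
        apply Finset.sum_eq_zero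
        intro w hw
        rw [if_neg (fun hh => hi4 j hj w hw hh.1)]
    rw [h11] at h10
    exact h10
  have total : ∀ e : T, ∀ k : ι, ∑ j, G S (u j) (τ j) e k = 0 := by
    intro e k
    have h1 := Finset.sum_fiberwise (s := (univ : Finset J)) (g := r)
      (f := fun j => G S (u j) (τ j) e k)
    rw [← h1]
    exact Finset.sum_eq_zero fun p _ => key p e k
  refine ⟨fun j => τ j - τ j0, sub_self _, fun c k => ?_⟩
  have := total (c + τ j0) k
  rw [← this]
  apply Finset.sum_congr rfl
  intro j _
  unfold G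
  apply Finset.sum_congr rfl
  intro w _
  have e1 : w.1 + (τ j - τ j0) - c = w.1 + τ j - (c + τ j0) := by abel
  rw [e1]

end Core

open Pool.Agent.H96MB

variable {T ι : Type*} [AddCommGroup T]

theorem push_shift (K : AddSubgroup T) (s : T) (x : T × ι →₀ ℤ) (c : T) (k : ι) :
    push K (shift s x) ((QuotientAddGroup.mk c : T ⧸ K), k) = G K x s c k := by
  classical
  have h1 : push K (shift s x) =
      Finsupp.mapDomain (fun p : T × ι => ((QuotientAddGroup.mk (s + p.1) : T ⧸ K), p.2)) x := by
    unfold push shift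
    simp only [Finsupp.mapDomain.addMonoidHom_apply]
    rw [← Finsupp.mapDomain_comp]
    rfl
  rw [h1, Finsupp.mapDomain, Finsupp.sum_apply, Finsupp.sum, G]
  apply Finset.sum_congr rfl
  intro w _
  rw [Finsupp.single_apply]
  have h2 : (((QuotientAddGroup.mk (s + w.1) : T ⧸ K), w.2) =
      ((QuotientAddGroup.mk c : T ⧸ K), k)) ↔ (w.1 + s - c ∈ K ∧ w.2 = k) := by
    rw [Prod.mk.injEq, QuotientAddGroup.eq, ← K.neg_mem_iff]
    have e1 : -(-(s + w.1) + c) = w.1 + s - c := by abel
    rw [e1]
  by_cases hw : w.1 + s - c ∈ K ∧ w.2 = k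
  · rw [if_pos hw, if_pos (h2.mpr hw)]
  · rw [if_neg hw, if_neg (fun hh => hw (h2.mp hh))]

theorem shift_zero (x : T × ι →₀ ℤ) : shift 0 x = x := by
  unfold shift
  simp only [Finsupp.mapDomain.addMonoidHom_apply, zero_add]
  exact Finsupp.mapDomain_id

theorem comb_iff (us : List (T × ι →₀ ℤ)) (c : T × ι →₀ ℤ) :
    c ∈ comb us ↔ ∃ s : Fin us.length → T, c = ∑ j, shift (s j) (us.get j) := by
  induction us generalizing c with
  | nil =>
    constructor
    · intro h
      exact ⟨fun _ => 0, by simpa [comb] using h⟩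
    · rintro ⟨s, rfl⟩
      simp [comb]
  | cons u us ih =>
    constructor
    · rintro ⟨s0, z, hz, rfl⟩
      obtain ⟨s, rfl⟩ := (ih z).mp hz
      refine ⟨(Fin.cons s0 s : Fin (us.length + 1) → T), ?_⟩
      exact (Fin.sum_univ_succ (n := us.length)
        (f := fun j => shift ((Fin.cons s0 s : Fin (us.length + 1) → T) j)
          ((u :: us).get j))).symm
    · rintro ⟨s, rfl⟩
      let s' : Fin (us.length + 1) → T := s
      refine ⟨s' 0, ∑ j : Fin us.length, shift (s' j.succ) (us.get j), (ih _).mpr ⟨_, rfl⟩, ?_⟩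
      exact Fin.sum_univ_succ (n := us.length)
        (f := fun j => shift (s' j) ((u :: us).get j))

theorem rf_add [AddGroup.FG T] (S : AddSubgroup T) (x : T) (hx : x ∉ S) :
    ∃ K : AddSubgroup T, S ≤ K ∧ K.FiniteIndex ∧ x ∉ K := by
  obtain ⟨K, _, hfi, hSK, hxK⟩ := Pool.Agent.H93RF.rf (G := Multiplicative T)
    (fun a b c => mul_comm _ _) (AddSubgroup.toSubgroup S) (Multiplicative.ofAdd x) hx
  refine ⟨Subgroup.toAddSubgroup' K, ?_, ?_, ?_⟩
  · intro y hy
    exact hSK (show Multiplicative.ofAdd y ∈ AddSubgroup.toSubgroup S from hy)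
  · refine ⟨?_⟩
    have h0 := hfi.index_ne_zero
    have h1 : (Subgroup.toAddSubgroup' K).index = K.index := by
      unfold AddSubgroup.index Subgroup.index
      refine Nat.card_congr (Quotient.congr (Multiplicative.ofAdd : T ≃ Multiplicative T) ?_)
      intro a b
      rw [QuotientAddGroup.leftRel_apply, QuotientGroup.leftRel_apply]
      rfl
    rw [h1]
    exact h0
  · exact hxK

/-- P3 (separation) -/
theorem separation {T ι : Type*} [AddCommGroup T] [AddGroup.FG T] (S : AddSubgroup T)
    (us : List (T × ι →₀ ℤ)) (v : T × ι →₀ ℤ)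
    (h : ∀ K : AddSubgroup T, S ≤ K → K.FiniteIndex → ∀ m : ℕ, 0 < m →
      ∃ c ∈ comb us, ∀ q, (m : ℤ) ∣ push K (v - c) q) :
    ∃ c ∈ comb us, push S (v - c) = 0 := by
  classical
  have hex : ∀ x : T, ∃ K : AddSubgroup T, S ≤ K ∧ K.FiniteIndex ∧ (x ∉ S → x ∉ K) := by
    intro x
    by_cases hx : x ∈ S
    · exact ⟨⊤, le_top, inferInstance, fun h => absurd hx h⟩
    · obtain ⟨K, h1, h2, h3⟩ := rf_add S x hx
      exact ⟨K, h1, h2, fun _ => h3⟩
  choose Kx hSx hfx hnx using hex
  let K : Finset T × ℕ → AddSubgroup T := fun i => ⨅ x : {x // x ∈ i.1}, Kx x.1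
  have hSK : ∀ i, S ≤ K i := fun i => le_iInf fun x => hSx _
  have hfi : ∀ i, (K i).FiniteIndex := fun i =>
    AddSubgroup.finiteIndex_iInf (fun x => hfx _)
  let F : Ultrafilter (Finset T × ℕ) := Ultrafilter.of atTop
  have hF : (F : Filter (Finset T × ℕ)) ≤ atTop := Ultrafilter.of_le _
  let M : Finset T × ℕ → AddSubgroup ℤ := fun i => AddSubgroup.zmultiples ((i.2 + 1 : ℕ) : ℤ)
  have hK : ∀ x : T, x ∉ S → ∀ᶠ i in (F : Filter (Finset T × ℕ)), x ∉ K i := by
    intro x hx
    apply hF
    refine (eventually_ge_atTop (({x} : Finset T), 0)).mono fun i hi hmem => ?_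
    have h1 : x ∈ i.1 := hi.1 (Finset.mem_singleton_self x)
    have h2 : x ∈ Kx x := (AddSubgroup.mem_iInf.mp hmem) ⟨x, h1⟩
    exact hnx x hx h2
  have hM : ∀ y : ℤ, y ≠ 0 → ∀ᶠ i in (F : Filter (Finset T × ℕ)), y ∉ M i := by
    intro y hy
    apply hF
    refine (eventually_ge_atTop ((∅ : Finset T), y.natAbs)).mono fun i hi hmem => ?_
    have h1 : ((i.2 + 1 : ℕ) : ℤ) ∣ y := Int.mem_zmultiples_iff.mp hmem
    have h2 : i.2 + 1 ∣ y.natAbs := Int.natCast_dvd.mp h1
    have h3 := Nat.le_of_dvd (Int.natAbs_pos.mpr hy) h2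
    have h4 : y.natAbs ≤ i.2 := hi.2
    omega
  have hc : ∀ i : Finset T × ℕ, ∃ s : Fin us.length → T, ∀ q, ((i.2 + 1 : ℕ) : ℤ) ∣
      push (K i) (v - ∑ j, shift (s j) (us.get j)) q := by
    intro i
    obtain ⟨c, hc, hd⟩ := h (K i) (hSK i) (hfi i) (i.2 + 1) (Nat.succ_pos _)
    obtain ⟨s, rfl⟩ := (comb_iff us c).mp hc
    exact ⟨s, hd⟩
  choose s hs using hc
  have hsum : ∀ (L : AddSubgroup T) (s : Option (Fin us.length) → T) (c : T) (k : ι),
      s none = 0 →
      ∑ j : Option (Fin us.length), G L (j.elim (-v) us.get) (s j) c k =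
        -(push L (v - ∑ j, shift (s (some j)) (us.get j)) ((QuotientAddGroup.mk c : T ⧸ L), k)) := by
    intro L s c k h0
    rw [Fintype.sum_option]
    simp only [Option.elim]
    rw [← push_shift, h0, shift_zero, map_neg, map_sub, map_sum, Finsupp.sub_apply,
      Finsupp.finsetSum_apply, Finsupp.neg_apply, neg_sub, sub_eq_neg_add]
    congr 1
    apply Finset.sum_congr rfl
    intro j _
    rw [← push_shift]
  obtain ⟨s', h0, hs'⟩ := core (J := Option (Fin us.length)) F S K M hSK hK hM
    (fun j => j.elim (-v) us.get) (fun i j => j.elim 0 (s i)) (by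
      intro i c k
      rw [hsum (K i) (fun j => j.elim 0 (s i)) c k rfl]
      exact (M i).neg_mem (Int.mem_zmultiples_iff.mpr (hs i _))) none
  refine ⟨∑ j, shift (s' (some j)) (us.get j), (comb_iff us _).mpr ⟨_, rfl⟩, ?_⟩
  ext q
  obtain ⟨q1, k⟩ := q
  induction q1 using QuotientAddGroup.induction_on with
  | H c =>
    have h1 := hs' c k
    rw [hsum S s' c k h0, neg_eq_zero] at h1
    rw [h1]
    rfl

end Pool.Agent.H43Sep2
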